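import Mathlib

set_option autoImplicit false

namespace Pool.Agent.H68.SM

open groupHomology Finsupp
open scoped commutatorElement

variable (G : Type) [Group G]

/-- trivial integral representation -/
abbrev TZ : Rep ℤ G := Rep.trivial ℤ G ℤ

/-- second boundary map on plain finitely supported functions -/
noncomputable def d2 : (G × G →₀ ℤ) →ₗ[ℤ] (G →₀ ℤ) := (d₂₁ (TZ G)).hom

/-- third boundary map -/
noncomputable def d3 : (G × G × G →₀ ℤ) →ₗ[ℤ] (G × G →₀ ℤ) := (d₃₂ (TZ G)).hom

variable {G}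

lemma d2_single (g h : G) (a : ℤ) :
    d2 G (single (g, h) a) = single h a - single (g * h) a + single g a := by
  have := d₂₁_single (A := TZ G) (g, h) a
  simpa [d2] using this

lemma d3_single (g h j : G) (a : ℤ) :
    d3 G (single (g, h, j) a) =
      single (h, j) a - single (g * h, j) a + single (g, h * j) a - single (g, h) a := by
  have := d₃₂_single (A := TZ G) (g, h, j) a
  simpa [d3] using this

lemma d2_d3 (x : G × G × G →₀ ℤ) : d2 G (d3 G x) = 0 :=
  d₃₂_apply_mem_cycles₂ (A := TZ G) x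

variable (G)

/-- chains modulo boundaries -/
abbrev Q : Type := (G × G →₀ ℤ) ⧸ LinearMap.range (d3 G)

/-- induced boundary -/
noncomputable def dbar : Q G →ₗ[ℤ] (G →₀ ℤ) :=
  (LinearMap.range (d3 G)).liftQ (d2 G) (by rintro _ ⟨x, rfl⟩; exact d2_d3 x)

variable {G}

/-- universal cocycle -/
noncomputable def cc (g h : G) : Q G := Submodule.Quotient.mk (single (g, h) 1)

lemma cc_cocycle (g h j : G) : cc g h + cc (g * h) j = cc h j + cc g (h * j) := by
  have : (Submodule.Quotient.mk (d3 G (single (g, h, j) 1)) : Q G) = 0 :=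
    (Submodule.Quotient.mk_eq_zero _).2 ⟨_, rfl⟩
  rw [d3_single] at this
  simp only [Submodule.Quotient.mk_sub, Submodule.Quotient.mk_add] at this
  unfold cc
  linear_combination (norm := abel) -this

lemma cc_one_left (j : G) : cc 1 j = cc (1 : G) 1 := by
  have := cc_cocycle (1 : G) 1 j
  simp only [mul_one, one_mul] at this
  exact (add_right_cancel this).symm

lemma cc_one_right (g : G) : cc g 1 = cc (1 : G) 1 := by
  have := cc_cocycle g 1 1
  simp only [mul_one] at this
  exact add_right_cancel this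

lemma dbar_cc (g h : G) : dbar G (cc g h) = single h 1 - single (g * h) 1 + single g 1 := by
  unfold dbar cc
  rw [Submodule.liftQ_apply, d2_single]

lemma Q_induction {P : Q G → Prop} (h0 : P 0) (hadd : ∀ x y, P x → P y → P (x + y))
    (hs : ∀ (n : ℤ) g h, P (n • cc g h)) (q : Q G) : P q := by
  induction q using Submodule.Quotient.induction_on with
  | H x =>
    induction x using Finsupp.induction_linear with
    | zero => simpa using h0
    | add f g hf hg => rw [Submodule.Quotient.mk_add]; exact hadd _ _ hf hg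
    | single a n =>
      have : (Submodule.Quotient.mk (single a n) : Q G) = n • cc a.1 a.2 := by
        unfold cc
        rw [← Submodule.Quotient.mk_smul]
        simp
      rw [this]; exact hs _ _ _

variable (G)

/-- the universal central extension -/
@[ext] structure UE : Type where
  q : Q G
  g : G

variable {G}

noncomputable instance : Mul (UE G) := ⟨fun x y => ⟨x.q + y.q + cc x.g y.g, x.g * y.g⟩⟩
noncomputable instance : One (UE G) := ⟨⟨-cc 1 1, 1⟩⟩
noncomputable instance : Inv (UE G) := ⟨fun x => ⟨-x.q - cc x.g⁻¹ x.g - cc 1 1, x.g⁻¹⟩⟩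

@[simp] lemma mul_q (x y : UE G) : (x * y).q = x.q + y.q + cc x.g y.g := rfl
@[simp] lemma mul_g (x y : UE G) : (x * y).g = x.g * y.g := rfl
@[simp] lemma one_q : (1 : UE G).q = -cc 1 1 := rfl
@[simp] lemma one_g : (1 : UE G).g = 1 := rfl
@[simp] lemma inv_q (x : UE G) : x⁻¹.q = -x.q - cc x.g⁻¹ x.g - cc 1 1 := rfl
@[simp] lemma inv_g (x : UE G) : x⁻¹.g = x.g⁻¹ := rfl

noncomputable instance : Group (UE G) :=
  Group.ofLeftAxioms
    (fun x y z => by
      ext
      · simp only [mul_q, mul_g]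
        linear_combination (norm := abel) cc_cocycle x.g y.g z.g
      · simp [mul_assoc])
    (fun x => by
      ext
      · simp [cc_one_left x.g]
      · simp)
    (fun x => by
      ext
      · simp only [mul_q, inv_q, inv_g, one_q]; abel
      · simp)

/-- projection -/
noncomputable def UE.pr : UE G →* G where
  toFun x := x.g
  map_one' := rfl
  map_mul' _ _ := rfl

/-- kernel inclusion -/
noncomputable def io (q : Q G) : UE G := ⟨q - cc 1 1, 1⟩

lemma io_mul (q : Q G) (x : UE G) : io q * x = ⟨q + x.q, x.g⟩ := by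
  ext
  · simp [io, cc_one_left x.g]; abel
  · simp [io]

lemma mul_io (q : Q G) (x : UE G) : x * io q = ⟨q + x.q, x.g⟩ := by
  ext
  · simp [io, cc_one_right x.g]; abel
  · simp [io]

lemma io_add (q r : Q G) : io (q + r) = io q * io r := by
  rw [io_mul]; ext <;> simp [io, add_sub_assoc]

lemma io_zero : io (0 : Q G) = 1 := by ext <;> simp [io]

lemma eq_io (x : UE G) (h : x.g = 1) : x = io (x.q + cc 1 1) := by
  ext <;> simp [io, h]

lemma io_inj {q r : Q G} (h : io q = io r) : q = r := by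
  have := congrArg UE.q h
  simpa [io] using this

lemma central (x : UE G) (h : UE.pr x = 1) : x ∈ Subgroup.center (UE G) := by
  rw [Subgroup.mem_center_iff]
  intro y
  rw [eq_io x h, io_mul, mul_io]

/-- additive invariant -/
noncomputable def psi : UE G →* Multiplicative (G →₀ ℤ) where
  toFun x := Multiplicative.ofAdd (dbar G x.q + single x.g 1)
  map_one' := by simp [dbar_cc]
  map_mul' x y := by
    rw [← ofAdd_add]; congr 1
    simp only [mul_q, mul_g, map_add, dbar_cc]; abel

lemma dbar_of_comm (q : Q G) (h : io q ∈ commutator (UE G)) : dbar G q = 0 := by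
  have h1 : psi (io q) = 1 := Abelianization.commutator_subset_ker psi h
  have h2 : dbar G (q - cc 1 1) + single (1 : G) (1 : ℤ) = 0 := h1
  simpa [dbar_cc] using h2

lemma comm_of_dbar (q : Q G) (h : dbar G q = 0) : io q ∈ commutator (UE G) := by
  let θ : (G →₀ ℤ) →ₗ[ℤ] Additive (Abelianization (UE G)) :=
    Finsupp.lift _ ℤ G (fun g => Additive.ofMul (Abelianization.of (⟨0, g⟩ : UE G)))
  have hθ : ∀ g : G, θ (single g 1) = Additive.ofMul (Abelianization.of (⟨0, g⟩ : UE G)) := by
    intro g; simp [θ]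
  let κ : Q G →+ Additive (Abelianization (UE G)) :=
    { toFun := fun q => Additive.ofMul (Abelianization.of (io q))
      map_zero' := by simp [io_zero]
      map_add' := fun a b => by simp [io_add] }
  have hk : ∀ g h : G, θ (dbar G (cc g h)) = κ (cc g h) := by
    intro g h
    rw [dbar_cc, map_add, map_sub, hθ, hθ, hθ]
    have e : (⟨0, g⟩ : UE G) * ⟨0, h⟩ = io (cc g h) * ⟨0, g * h⟩ := by
      rw [io_mul]; ext <;> simp
    have e2 := congrArg (fun z => Additive.ofMul (Abelianization.of z)) e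
    simp only [map_mul, ofMul_mul] at e2
    change _ = Additive.ofMul (Abelianization.of (io (cc g h)))
    linear_combination (norm := abel) e2
  have hall : ∀ q, θ (dbar G q) = κ q := by
    intro q
    induction q using Q_induction with
    | h0 => simp
    | hadd x y hx hy => simp [hx, hy]
    | hs n g h => rw [map_zsmul, map_zsmul, map_zsmul, hk]
  have := hall q
  rw [h, map_zero] at this
  have h3 : Abelianization.of (io q) = 1 := this.symm
  rw [← Abelianization.ker_of]
  exact h3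

lemma comm_formula (a b : G) (hab : a * b = b * a) :
    ⁅(⟨0, a⟩ : UE G), (⟨0, b⟩ : UE G)⁆ = io (cc a b - cc b a) := by
  have e : (⟨0, a⟩ : UE G) * ⟨0, b⟩ = io (cc a b - cc b a) * (⟨0, b⟩ * ⟨0, a⟩) := by
    rw [io_mul]; ext <;> simp [hab]
  rw [commutatorElement_def, e]; group

/-- second homology as the kernel of the induced boundary -/
theorem H2_equiv_ker : Nonempty (H2 (TZ G) ≃+ LinearMap.ker (dbar G)) := by
  let j : cycles₂ (TZ G) →ₗ[ℤ] LinearMap.ker (dbar G) :=
    LinearMap.codRestrict _ ((LinearMap.range (d3 G)).mkQ ∘ₗ (cycles₂ (TZ G)).subtype)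
      (fun x => by
        have : d2 G x.1 = 0 := x.2
        simp [dbar, this])
  have hj : Function.Surjective j := by
    rintro ⟨q, hq⟩
    induction q using Submodule.Quotient.induction_on with
    | H x => exact ⟨⟨x, show d2 G x = 0 by simpa [dbar] using hq⟩, rfl⟩
  let p : cycles₂ (TZ G) →ₗ[ℤ] H2 (TZ G) := (H2π (TZ G)).hom
  have hp : Function.Surjective p := fun y => by
    induction y using H2_induction_on with
    | h x => exact ⟨x, rfl⟩
  have hker : LinearMap.ker p = LinearMap.ker j := by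
    ext x
    rw [LinearMap.mem_ker, LinearMap.mem_ker]
    have h1 : p x = 0 ↔ x.1 ∈ boundaries₂ (TZ G) := H2π_eq_zero_iff x
    rw [h1, Subtype.ext_iff]
    exact (Submodule.Quotient.mk_eq_zero _).symm
  exact ⟨(((p.quotKerEquivOfSurjective hp).symm.trans (Submodule.quotEquivOfEq _ _ hker)).trans
    (j.quotKerEquivOfSurjective hj)).toAddEquiv⟩

/-- criterion computing the Schur multiplier -/
theorem H2_criterion {W A : Type} [AddCommGroup W] [AddCommGroup A] (φ : W →+ A)
    (hφ : Function.Surjective φ) (a b : W → G) (hab : ∀ w, a w * b w = b w * a w)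
    (upper : ∀ (E : Type) [Group E] (π : E →* G) (l : G → E), (∀ g, π (l g) = g) →
      (∀ e, π e = 1 → e ∈ Subgroup.center E) →
      (∀ v w, ⁅l (a (v + w)), l (b (v + w))⁆ = ⁅l (a v), l (b v)⁆ * ⁅l (a w), l (b w)⁆) ∧
      (∀ w, φ w = 0 → ⁅l (a w), l (b w)⁆ = 1) ∧
      ∀ e, π e = 1 → e ∈ commutator E → ∃ w, e = ⁅l (a w), l (b w)⁆)
    {B : Type} [AddCommGroup B] (f : G → G → B)
    (hf : ∀ g h j, f g h + f (g * h) j = f h j + f g (h * j))
    (lower : ∀ w, f (a w) (b w) = f (b w) (a w) → φ w = 0) :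
    Nonempty (A ≃+ H2 (TZ G)) := by
  obtain ⟨h1, h2, h3⟩ := upper (UE G) UE.pr (fun g => ⟨0, g⟩) (fun _ => rfl) central
  simp only [comm_formula _ _ (hab _)] at h1 h2 h3
  have hm : ∀ w, cc (a w) (b w) - cc (b w) (a w) ∈ LinearMap.ker (dbar G) := by
    intro w
    rw [LinearMap.mem_ker, map_sub, dbar_cc, dbar_cc, hab]; abel
  let α : W →+ LinearMap.ker (dbar G) := AddMonoidHom.mk'
    (fun w => ⟨cc (a w) (b w) - cc (b w) (a w), hm w⟩)
    (fun v w => Subtype.ext (io_inj (by rw [h1]; exact (io_add _ _).symm)))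
  have hα : Function.Surjective α := by
    rintro ⟨q, hq⟩
    obtain ⟨w, hw⟩ := h3 (io q) rfl (comm_of_dbar q hq)
    exact ⟨w, Subtype.ext (io_inj hw).symm⟩
  let Φ0 : (G × G →₀ ℤ) →ₗ[ℤ] B := Finsupp.lift _ ℤ (G × G) (fun z => f z.1 z.2)
  have hΦ0 : ∀ g h (n : ℤ), Φ0 (single (g, h) n) = n • f g h := by
    intro g h n; simp [Φ0]
  let Φ : Q G →ₗ[ℤ] B := (LinearMap.range (d3 G)).liftQ Φ0 (by
    rintro _ ⟨x, rfl⟩
    rw [LinearMap.mem_ker]
    induction x using Finsupp.induction_linear with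
    | zero => simp
    | add f g hf hg => simp [hf, hg]
    | single z n =>
      obtain ⟨g, h, j⟩ := z
      rw [d3_single]
      simp only [map_sub, map_add, hΦ0]
      have := hf g h j
      rw [← smul_sub, ← smul_add, ← smul_sub]
      have e : f h j - f (g * h) j + f g (h * j) - f g h = 0 := by
        linear_combination (norm := abel) -this
      rw [e, smul_zero])
  have hΦ : ∀ g h, Φ (cc g h) = f g h := by
    intro g h
    simp only [Φ, cc, Submodule.liftQ_apply, hΦ0, one_smul]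
  have hker : φ.ker = α.ker := by
    ext w
    rw [AddMonoidHom.mem_ker, AddMonoidHom.mem_ker]
    constructor
    · intro h
      have := h2 w h
      rw [← io_zero] at this
      exact Subtype.ext (io_inj this)
    · intro h
      have h' : cc (a w) (b w) - cc (b w) (a w) = 0 := congrArg Subtype.val h
      have := congrArg Φ h'
      rw [map_sub, hΦ, hΦ, map_zero, sub_eq_zero] at this
      exact lower w this
  obtain ⟨e⟩ := H2_equiv_ker (G := G)
  exact ⟨(((QuotientAddGroup.quotientKerEquivOfSurjective φ hφ).symm.trans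
    (QuotientAddGroup.quotientAddEquivOfEq hker)).trans
    (QuotientAddGroup.quotientKerEquivOfSurjective α hα)).trans e.symm⟩

/-- a cocycle from an invariant character of the kernel -/
theorem cocycle_of_char {Γ B : Type} [Group Γ] [AddCommGroup B] (N : Subgroup Γ) [hN : N.Normal]
    (χ : Γ → B) (hχ : ∀ n ∈ N, ∀ n' ∈ N, χ (n * n') = χ n + χ n')
    (hc : ∀ n ∈ N, ∀ γ, χ (γ * n * γ⁻¹) = χ n) :
    ∃ f : Γ ⧸ N → Γ ⧸ N → B, (∀ g h j, f g h + f (g * h) j = f h j + f g (h * j)) ∧
      ∀ γ δ : Γ, ⁅γ, δ⁆ ∈ N → f γ δ - f δ γ = χ ⁅γ, δ⁆ := by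
  let σ : Γ ⧸ N → Γ := Quotient.out
  have hσ : ∀ g, (σ g : Γ ⧸ N) = g := fun g => Quotient.out_eq g
  have hmem : ∀ γ : Γ, (γ : Γ ⧸ N) = 1 → γ ∈ N := fun γ h => (QuotientGroup.eq_one_iff γ).1 h
  have hm : ∀ g h, σ g * σ h * (σ (g * h))⁻¹ ∈ N := by
    intro g h; apply hmem; simp [hσ]
  have h1 : χ 1 = 0 := by
    have := hχ 1 N.one_mem 1 N.one_mem
    simpa using this
  have hinv : ∀ n ∈ N, χ n⁻¹ = -χ n := by
    intro n hn
    have := hχ n hn n⁻¹ (N.inv_mem hn)
    rw [mul_inv_cancel, h1] at this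
    linear_combination (norm := abel) -this
  have hl : ∀ n ∈ N, ∀ γ δ : Γ, ⁅γ, δ⁆ ∈ N → χ ⁅n * γ, δ⁆ = χ ⁅γ, δ⁆ := by
    intro n hn γ δ h
    have e : ⁅n * γ, δ⁆ = n * ⁅γ, δ⁆ * (δ * n⁻¹ * δ⁻¹) := by
      simp only [commutatorElement_def]; group
    rw [e, hχ _ (N.mul_mem hn h) _ (hN.conj_mem _ (N.inv_mem hn) _), hχ _ hn _ h,
      hc _ (N.inv_mem hn), hinv _ hn]
    abel
  have hr : ∀ n ∈ N, ∀ γ δ : Γ, ⁅γ, δ⁆ ∈ N → χ ⁅γ, n * δ⁆ = χ ⁅γ, δ⁆ := by
    intro n hn γ δ h
    have e : ⁅γ, n * δ⁆ = (γ * n * γ⁻¹) * ⁅γ, δ⁆ * n⁻¹ := by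
      simp only [commutatorElement_def]; group
    rw [e, hχ _ (N.mul_mem (hN.conj_mem _ hn _) h) _ (N.inv_mem hn),
      hχ _ (hN.conj_mem _ hn _) _ h, hc _ hn, hinv _ hn]
    abel
  refine ⟨fun g h => χ (σ g * σ h * (σ (g * h))⁻¹), fun g h j => ?_, fun γ δ h => ?_⟩
  · beta_reduce
    rw [← hχ _ (hm g h) _ (hm (g * h) j), ← hc _ (hm h j) (σ g),
      ← hχ _ (hN.conj_mem _ (hm h j) _) _ (hm g (h * j))]
    congr 1
    rw [mul_assoc g h j]; group
  · have hcomm : (γ : Γ ⧸ N) * δ = δ * γ := by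
      have : ((⁅γ, δ⁆ : Γ) : Γ ⧸ N) = 1 := (QuotientGroup.eq_one_iff _).2 h
      rw [commutatorElement_def] at this
      simp only [QuotientGroup.mk_mul, QuotientGroup.mk_inv] at this
      exact commutatorElement_eq_one_iff_mul_comm.1 (by rw [commutatorElement_def]; exact this)
    have hg : σ γ * γ⁻¹ ∈ N := by apply hmem; simp [hσ]
    have hd : σ δ * δ⁻¹ ∈ N := by apply hmem; simp [hσ]
    have hin : ⁅γ, σ δ⁆ ∈ N := by
      apply hmem
      rw [commutatorElement_def]
      simp only [QuotientGroup.mk_mul, QuotientGroup.mk_inv, hσ, hcomm]; group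
    have hin2 : ⁅σ γ, σ δ⁆ ∈ N := by
      apply hmem
      rw [commutatorElement_def]
      simp only [QuotientGroup.mk_mul, QuotientGroup.mk_inv, hσ, hcomm]; group
    have e1 : χ ⁅σ γ, σ δ⁆ = χ ⁅γ, δ⁆ := by
      have a1 := hl _ hg γ (σ δ) hin
      have a2 := hr _ hd γ δ h
      simp only [inv_mul_cancel_right] at a1 a2
      rw [a1, a2]
    have e2 : σ γ * σ δ * (σ ((γ : Γ ⧸ N) * δ))⁻¹ =
        ⁅σ γ, σ δ⁆ * (σ δ * σ γ * (σ ((δ : Γ ⧸ N) * γ))⁻¹) := by
      rw [hcomm, commutatorElement_def]; group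
    show χ _ - χ _ = _
    rw [e2, hχ _ hin2 _ (hm _ _), e1]; abel

end Pool.Agent.H68.SM
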