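import Pool.Agent.H68.SM.A
import Pool.Agent.H68.SM.B

set_option autoImplicit false

namespace Pool.Agent.H68.SM

open scoped commutatorElement
open QuadraticAlgebra

variable {W : Type} [CommRing W]

/-- the generator as a unit -/
def tu (x : W) : (SS x)ˣ := ⟨tt x, star (tt x), tt_mul_star x, by rw [mul_comm, tt_mul_star]⟩

/-- integer powers of the generator -/
def ta (x : W) (k : ℤ) : SS x := (tu x ^ k : (SS x)ˣ)

lemma ta_add (x : W) (a b : ℤ) : ta x (a + b) = ta x a * ta x b := by simp [ta, zpow_add]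
@[simp] lemma ta_zero (x : W) : ta x 0 = 1 := by simp [ta]
@[simp] lemma ta_one (x : W) : ta x 1 = tt x := by simp [ta, tu]
lemma ta_neg_one (x : W) : ta x (-1) = star (tt x) := by simp [ta, tu]
lemma ta_nat (x : W) (n : ℕ) : ta x n = tt x ^ n := by simp [ta, tu]

lemma ta_ind {x : W} {P : SS x → Prop} (h1 : P 1) (hm : ∀ a b, P a → P b → P (a * b)) {q : ℤ}
    (ht : P (ta x q)) (hs : P (ta x (-q))) (k : ℤ) : P (ta x (q * k)) := by
  induction k using Int.induction_on with
  | zero => simpa using h1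
  | succ n ih => rw [mul_add, mul_one, ta_add]; exact hm _ _ ih ht
  | pred n ih => rw [mul_sub, mul_one, sub_eq_add_neg, ta_add]; exact hm _ _ ih hs

lemma ta_star (x : W) (k : ℤ) : ta x k * star (ta x k) = 1 := by
  have := ta_ind (x := x) (P := fun u => u * star u = 1) (q := 1) (by simp)
    (fun a b ha hb => by
      rw [star_mul]; linear_combination (b * star b) * ha + hb)
    (by simpa using tt_mul_star x) (by rw [ta_neg_one, star_star, mul_comm, tt_mul_star]) k
  simpa using this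

lemma be_ta {x : W} (k : ℤ) (m n : SS x) : be (ta x k * m) (ta x k * n) = be m n := by
  rw [← be_eq, ← be_eq, star_mul]
  congr 1
  linear_combination (m * star n) * ta_star x k

lemma ta_fix {x : W} {m : SS x} (h : tt x * m = m) (k : ℤ) : ta x k * m = m := by
  have := ta_ind (x := x) (P := fun u => u * m = m) (q := 1) (by simp)
    (fun a b ha hb => by rw [mul_assoc, hb, ha]) (by simpa using h)
    (by rw [ta_neg_one]; linear_combination m * tt_mul_star x - star (tt x) * h) k
  simpa using this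

lemma ta_dvd {x : W} {d : SS x} {q : ℤ} (h : d ∣ ta x q - 1) (k : ℤ) : d ∣ ta x (q * k) - 1 := by
  refine ta_ind (x := x) (P := fun u => d ∣ u - 1) (by simp) (fun a b ha hb => ?_) h ?_ k
  · have := dvd_add (ha.mul_right b) hb
    convert this using 1; ring
  · have := (h.mul_right (ta x (-q))).neg_right
    convert this using 1
    rw [sub_mul, ← ta_add]; simp

lemma exists_ta_dvd (p : ℕ) (hp : p.Prime) (x : W) (K N : ℕ) (hK : (p : W) ∣ x ^ K) :
    ∃ j : ℕ, (p : SS x) ^ (N + 1) ∣ ta x (p ^ j : ℕ) - 1 := by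
  have h1 : (p : SS x) ∣ (tt x - 1) ^ (2 * K) := by
    have e : (tt x - 1) ^ 2 = algebraMap W (SS x) x * tt x := by
      ext <;> simp [pow_two, algebraMap_eq, re_one, im_one]; ring
    rw [pow_mul, e, mul_pow, ← map_pow]
    have := map_dvd (algebraMap W (SS x)) hK
    rw [map_natCast] at this
    exact this.mul_right _
  have h2 : 2 * K ≤ p ^ (2 * K) := (Nat.lt_pow_self hp.one_lt).le
  have h3 : (p : SS x) ∣ tt x ^ (p ^ (2 * K)) - 1 := by
    obtain ⟨r, hr⟩ := exists_add_pow_prime_pow_eq hp (tt x - 1) 1 (2 * K)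
    rw [sub_add_cancel, one_pow] at hr
    rw [hr]
    have := dvd_add (h1.trans (pow_dvd_pow _ h2)) (dvd_mul_right (p : SS x) ((tt x - 1) * 1 * r))
    convert this using 1; ring
  have h4 := dvd_sub_pow_of_dvd_sub h3 N
  refine ⟨2 * K + N, ?_⟩
  rw [ta_nat, pow_add p, pow_mul]
  simpa using h4

/-- Heisenberg group extended by the infinite cyclic group -/
@[ext] structure GG (x : W) : Type where
  m : SS x
  c : W
  n : ℤ

variable {x : W}

instance : Mul (GG x) :=
  ⟨fun a b => ⟨a.m + ta x a.n * b.m, a.c + b.c + be a.m (ta x a.n * b.m), a.n + b.n⟩⟩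
instance : One (GG x) := ⟨⟨0, 0, 0⟩⟩
instance : Inv (GG x) := ⟨fun a => ⟨-(ta x (-a.n) * a.m), -a.c, -a.n⟩⟩

@[simp] lemma mul_m (a b : GG x) : (a * b).m = a.m + ta x a.n * b.m := rfl
@[simp] lemma mul_c (a b : GG x) : (a * b).c = a.c + b.c + be a.m (ta x a.n * b.m) := rfl
@[simp] lemma mul_n (a b : GG x) : (a * b).n = a.n + b.n := rfl
@[simp] lemma one_m : (1 : GG x).m = 0 := rfl
@[simp] lemma one_c : (1 : GG x).c = 0 := rfl
@[simp] lemma one_n : (1 : GG x).n = 0 := rfl
@[simp] lemma inv_m (a : GG x) : a⁻¹.m = -(ta x (-a.n) * a.m) := rfl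
@[simp] lemma inv_c (a : GG x) : a⁻¹.c = -a.c := rfl
@[simp] lemma inv_n (a : GG x) : a⁻¹.n = -a.n := rfl

lemma be_add_left (a b c : SS x) : be (a + b) c = be a c + be b c := by simp [be]; ring
lemma be_add_right (a b c : SS x) : be c (a + b) = be c a + be c b := by simp [be]; ring

instance : Group (GG x) :=
  Group.ofLeftAxioms
    (fun a b c => by
      refine GG.ext ?_ ?_ ?_
      · simp only [mul_m, mul_n, ta_add]; ring
      · simp only [mul_m, mul_n, mul_c, ta_add, mul_add, be_add_left, be_add_right, mul_assoc,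
          be_ta]
        ring
      · simp [add_assoc])
    (fun a => by refine GG.ext ?_ ?_ ?_ <;> simp [be])
    (fun a => by
      refine GG.ext ?_ ?_ ?_
      · simp
      · simp only [mul_c, inv_c, inv_m, inv_n, one_c, be, re_neg, im_neg]; ring
      · simp)

lemma s_zpow (k : ℤ) : (⟨0, 0, 1⟩ : GG x) ^ k = ⟨0, 0, k⟩ := by
  induction k using Int.induction_on with
  | zero => rfl
  | succ n ih => rw [zpow_add_one, ih]; refine GG.ext ?_ ?_ ?_ <;> simp [be]
  | pred n ih => rw [zpow_sub_one, ih]; refine GG.ext ?_ ?_ ?_ <;> simp [be, sub_eq_add_neg]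

lemma pow_n (a : GG x) (k : ℕ) : (a ^ k).n = k * a.n := by
  induction k with
  | zero => simp
  | succ n ih => rw [pow_succ, mul_n, ih]; push_cast; ring

lemma conj_m (a b : GG x) : (a * b * a⁻¹).m = a.m + ta x a.n * b.m - ta x b.n * a.m := by
  simp only [mul_m, mul_n, inv_m, mul_neg, ← mul_assoc, ← ta_add]
  rw [show a.n + b.n + -a.n = b.n by ring]; ring

lemma conj_c (a b : GG x) : (a * b * a⁻¹).c = b.c + 2 * be a.m (ta x a.n * b.m)
    - be (a.m + ta x a.n * b.m) ((ta x b.n - 1) * a.m) := by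
  simp only [mul_c, mul_m, mul_n, inv_m, inv_c, mul_neg, ← mul_assoc, ← ta_add]
  rw [show a.n + b.n + -a.n = b.n by ring, sub_mul, one_mul]
  generalize ta x a.n * b.m = u
  generalize ta x b.n * a.m = v
  simp [be]; ring

/-- the kernel defining the finite group -/
def NN (g m0 : SS x) (h0 : tt x * m0 = m0) (q : ℤ) : Subgroup (GG x) where
  carrier := {a | ∃ k : ℤ, a.n = q * k ∧ g ∣ a.m + k * m0}
  one_mem' := ⟨0, by simp, by simp⟩
  mul_mem' := by
    rintro a b ⟨k, hk, ha⟩ ⟨l, hl, hb⟩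
    refine ⟨k + l, by simp [hk, hl, mul_add], ?_⟩
    have := dvd_add ha (hb.mul_left (ta x a.n))
    convert this using 1
    simp only [mul_m]; push_cast
    linear_combination -(l : SS x) * ta_fix h0 a.n
  inv_mem' := by
    rintro a ⟨k, hk, ha⟩
    refine ⟨-k, by simp [hk], ?_⟩
    have := (ha.mul_left (ta x (-a.n))).neg_right
    convert this using 1
    simp only [inv_m]; push_cast
    linear_combination (k : SS x) * ta_fix h0 (-a.n)

lemma NN_normal (g m0 : SS x) (h0 : tt x * m0 = m0) (q : ℤ) (hq : g ∣ ta x q - 1) :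
    (NN g m0 h0 q).Normal := ⟨by
  rintro b ⟨k, hk, hb⟩ a
  refine ⟨k, by simp [hk], ?_⟩
  have := dvd_sub (hb.mul_left (ta x a.n)) ((ta_dvd hq k).mul_right a.m)
  convert this using 1
  rw [conj_m, hk]
  linear_combination -(k : SS x) * ta_fix h0 a.n⟩

theorem main_j (p : ℕ) (hp : p.Prime) (x F g1 : W)
    (hW : ∀ w : W, ∃ P : Polynomial ℤ, Polynomial.aeval x P = w)
    (hxF : x * F = 0) (hann : ∀ h, p * g1 ∣ x * h → ∃ k : ℤ, p * g1 ∣ h - k * F)
    (N : ℕ) (hN : p * g1 ∣ (p : W) ^ N)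
    (h2 : ∀ w : W, 2 * w = 0 → w = 0) [Finite (W ⧸ Ideal.span {p * g1})] (hnt : ¬ p * g1 ∣ 1)
    {A : Type} [AddCommGroup A] (φ : W →+ A) (hφ : Function.Surjective φ)
    (hφ' : ∀ w, φ w = 0 ↔ w ∈ Ideal.span {F, p * g1})
    (j : ℕ) (hj : (p : SS x) ^ (N + 1) ∣ ta x (p ^ j : ℕ) - 1) :
    ∃ (G : Type) (_ : Group G),
      Nat.card G = Nat.card (W ⧸ Ideal.span {p * g1}) ^ 2 * (p ^ j * p ^ N) ∧ IsPGroup p G ∧
      (∃ x y : G, x * y ≠ y * x) ∧ (∃ a b : G, Subgroup.closure {a, b} = ⊤) ∧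
      (∃ (B : Subgroup G) (_ : B.Normal), (∀ u ∈ B, ∀ v ∈ B, u * v = v * u) ∧ IsCyclic (G ⧸ B)) ∧
      Nonempty (A ≃+ (groupHomology.H2 (Rep.trivial ℤ G ℤ))) := by
  set g : W := p * g1 with hg
  let m0 : SS x := algebraMap W (SS x) F * (tt x - 1)
  have h0 : tt x * m0 = m0 := by
    ext <;> simp [m0, algebraMap_eq, re_one, im_one]
    linear_combination hxF
  have hgp : algebraMap W (SS x) g ∣ (p : SS x) ^ N := by
    simpa using map_dvd (algebraMap W (SS x)) hN
  have hgp' : algebraMap W (SS x) g ∣ (p : SS x) ^ (N + 1) := hgp.trans (pow_dvd_pow _ (by simp))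
  let q : ℕ := p ^ j * p ^ N
  have hq : (p : SS x) ^ (N + 1) ∣ ta x q - 1 := by
    have := ta_dvd hj (p ^ N : ℕ)
    rwa [← Nat.cast_mul] at this
  let Nn : Subgroup (GG x) := NN (algebraMap W (SS x) g) m0 h0 q
  haveI : Nn.Normal := NN_normal _ _ _ _ (hgp'.trans hq)
  let ρ : SS x → GG x ⧸ Nn := fun m => ((⟨m, 0, 0⟩ : GG x) : GG x ⧸ Nn)
  let s : GG x ⧸ Nn := ((⟨0, 0, 1⟩ : GG x) : GG x ⧸ Nn)
  have heq : ∀ (a b : GG x) (k : ℤ), b.n = a.n + q * k →
      algebraMap W (SS x) g ∣ b.m - a.m + k * m0 → (a : GG x ⧸ Nn) = b := by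
    intro a b k h1 h2
    rw [QuotientGroup.eq]
    refine ⟨k, by simp [h1], ?_⟩
    have := h2.mul_left (ta x (-a.n))
    convert this using 1
    simp only [mul_m, inv_m, inv_n]
    linear_combination -(k : SS x) * ta_fix h0 (-a.n)
  have hρ : ∀ m n, ρ (m + n) = ρ m * ρ n := fun m n => by
    simp only [ρ]; rw [← QuotientGroup.mk_mul]; exact heq _ _ 0 (by simp) (by simp)
  have hs : ∀ m, s * ρ m * s⁻¹ = ρ (tt x * m) := fun m => by
    simp only [ρ, s]
    rw [← QuotientGroup.mk_inv, ← QuotientGroup.mk_mul, ← QuotientGroup.mk_mul]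
    exact heq _ _ 0 (by simp) (by simp)
  have hsz : ∀ k : ℤ, s ^ k = ((⟨0, 0, k⟩ : GG x) : GG x ⧸ Nn) := fun k => by
    simp only [s]; rw [← QuotientGroup.mk_zpow, s_zpow]
  have hmk : ∀ a : GG x, (a : GG x ⧸ Nn) = ρ a.m * s ^ a.n := fun a => by
    rw [hsz]; simp only [ρ]; rw [← QuotientGroup.mk_mul]; exact heq _ _ 0 (by simp) (by simp)
  have hgen : ∀ γ : GG x ⧸ Nn, ∃ (m : SS x) (n : ℤ), γ = ρ m * s ^ n := fun γ => by
    induction γ using QuotientGroup.induction_on with
    | H a => exact ⟨_, _, hmk a⟩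
  have hq0 : (q : ℤ) ≠ 0 := by
    have := hp.pos
    positivity
  have hker : ∀ m, ρ m = 1 ↔ algebraMap W (SS x) g ∣ m := fun m => by
    simp only [ρ]; rw [QuotientGroup.eq_one_iff]
    constructor
    · rintro ⟨k, hk, h⟩
      have : k = 0 := (mul_eq_zero.1 hk.symm).resolve_left hq0
      simpa [this] using h
    · intro h; exact ⟨0, by simp, by simpa using h⟩
  have hρn : ∀ (n : ℕ) m, ρ m ^ n = ρ (n * m) := fun n m => by
    induction n with
    | zero => rw [pow_zero, eq_comm, hker]; simp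
    | succ n ih => rw [pow_succ, ih, ← hρ]; congr 1; push_cast; ring
  have hρN : ∀ m, ρ m ^ (p ^ N) = 1 := fun m => by
    rw [hρn, hker]; push_cast; exact hgp.mul_right _
  have hab : ∀ m n, ρ m * ρ n = ρ n * ρ m := fun m n => by rw [← hρ, ← hρ, add_comm]
  refine ⟨GG x ⧸ Nn, inferInstance, ?_, ?_, ⟨s, ρ 1, ?_⟩, ⟨s, ρ 1, ?_⟩, ?_, ?_⟩
  · let f : (W ⧸ Ideal.span {g}) × (W ⧸ Ideal.span {g}) × Fin q → GG x ⧸ Nn :=
      fun z => ((⟨⟨z.1.out, z.2.1.out⟩, 0, (z.2.2 : ℕ)⟩ : GG x) : GG x ⧸ Nn)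
    have hfs : Function.Injective f := by
      rintro ⟨z1, z2, z3⟩ ⟨w1, w2, w3⟩ h
      obtain ⟨k, hk, hd⟩ := QuotientGroup.eq.1 h
      simp only [mul_n, inv_n] at hk
      have hk0 : k = 0 := by
        have h1 : ((z3 : ℕ) : ℤ) < q := by exact_mod_cast z3.2
        have h2 : ((w3 : ℕ) : ℤ) < q := by exact_mod_cast w3.2
        have h3 : (0 : ℤ) ≤ ((z3 : ℕ) : ℤ) := by positivity
        have h4 : (0 : ℤ) ≤ ((w3 : ℕ) : ℤ) := by positivity
        rcases lt_trichotomy k 0 with h5 | h5 | h5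
        · exfalso
          nlinarith
        · exact h5
        · exfalso
          nlinarith
      subst hk0
      have h6 : z3 = w3 := by
        apply Fin.ext
        have : ((w3 : ℕ) : ℤ) = ((z3 : ℕ) : ℤ) := by linarith
        exact_mod_cast this.symm
      have h7 : algebraMap W (SS x) g ∣ (⟨w1.out, w2.out⟩ : SS x) - ⟨z1.out, z2.out⟩ := by
        have := hd.mul_left (ta x ((z3 : ℕ) : ℤ))
        convert this using 1
        simp only [mul_m, inv_m, inv_n, Int.cast_zero, zero_mul, add_zero]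
        rw [mul_add, mul_neg, ← mul_assoc, ← mul_assoc, ← ta_add]
        ext <;> simp <;> ring
      rw [algebraMap_dvd_iff] at h7
      have ho : ∀ u v : W ⧸ Ideal.span {g}, g ∣ v.out - u.out → u = v := by
        intro u v h
        rw [← Ideal.mem_span_singleton, ← Ideal.Quotient.eq] at h
        have hu : Ideal.Quotient.mk (Ideal.span {g}) u.out = u := Quotient.out_eq _
        have hv : Ideal.Quotient.mk (Ideal.span {g}) v.out = v := Quotient.out_eq _
        rw [hu, hv] at h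
        exact h.symm
      rw [ho z1 w1 (by simpa using h7.1), ho z2 w2 (by simpa using h7.2), h6]
    have hfb : Function.Bijective f := by
      refine ⟨hfs, fun γ => ?_⟩
      revert γ
      refine fun γ => ?_
      induction γ using QuotientGroup.induction_on with
      | H a =>
        have hq1 : (0 : ℤ) < q := lt_of_le_of_ne (Int.natCast_nonneg q) hq0.symm
        have hr : (a.n % q).toNat < q := by
          have := Int.emod_lt_of_pos a.n hq1
          have := Int.emod_nonneg a.n hq0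
          omega
        let y : SS x := a.m + (a.n / q : ℤ) * m0
        refine ⟨(Ideal.Quotient.mk _ y.re, Ideal.Quotient.mk _ y.im, ⟨_, hr⟩), ?_⟩
        refine heq _ _ (a.n / q) ?_ ?_
        · simp [Int.toNat_of_nonneg (Int.emod_nonneg a.n hq0), Int.emod_add_mul_ediv]
        · have ho : ∀ w : W, g ∣ w - (Ideal.Quotient.mk (Ideal.span {g}) w).out := fun w => by
            rw [← Ideal.mem_span_singleton, ← Ideal.Quotient.eq]
            exact (Quotient.out_eq _).symm
          rw [show ∀ u : SS x, a.m - u + (a.n / q : ℤ) * m0 = y - u from fun u => by ring,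
            algebraMap_dvd_iff]
          exact ⟨ho _, ho _⟩
    rw [← Nat.card_congr (Equiv.ofBijective f hfb)]
    rw [Nat.card_prod, Nat.card_prod, Nat.card_fin]
    simp only [q]
    ring
  · intro γ
    induction γ using QuotientGroup.induction_on with
    | H a =>
      refine ⟨j + N + N, ?_⟩
      rw [pow_add, pow_add, pow_mul, ← QuotientGroup.mk_pow]
      have : ((a ^ q : GG x) : GG x ⧸ Nn) = ρ ((a ^ q).m + a.n * m0) :=
        (heq _ _ a.n (by simp [pow_n]) (by simp)).symm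
      rw [this, hρN]
  · intro h
    have h1 := hs 1
    rw [h, mul_inv_cancel_right, mul_one] at h1
    have h3 : ρ (tt x - 1) = 1 := by
      have := hρ (tt x - 1) 1
      rw [sub_add_cancel, ← h1] at this
      exact (by simpa using this : ρ (tt x - 1) = 1)
    rw [hker, algebraMap_dvd_iff] at h3
    exact hnt (by simpa [im_one] using h3.2)
  · rw [eq_top_iff]
    intro γ _
    obtain ⟨m, n, rfl⟩ := hgen γ
    have hsC : s ∈ Subgroup.closure {s, ρ 1} := Subgroup.subset_closure (by simp)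
    refine Subgroup.mul_mem _ ?_ (Subgroup.zpow_mem _ hsC n)
    have h1C : ρ 1 ∈ Subgroup.closure {s, ρ 1} := Subgroup.subset_closure (by simp)
    have hadd : ∀ u v, ρ u ∈ Subgroup.closure {s, ρ 1} → ρ v ∈ Subgroup.closure {s, ρ 1} →
        ρ (u + v) ∈ Subgroup.closure {s, ρ 1} := fun u v hu hv => by
      rw [hρ]; exact Subgroup.mul_mem _ hu hv
    have hneg : ∀ u, ρ u ∈ Subgroup.closure {s, ρ 1} →
        ρ (-u) ∈ Subgroup.closure {s, ρ 1} := fun u hu => by
      have : ρ (-u) = (ρ u)⁻¹ := by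
        rw [eq_inv_iff_mul_eq_one, ← hρ, neg_add_cancel, hker]; exact dvd_zero _
      rw [this]; exact Subgroup.inv_mem _ hu
    have htt : ∀ u, ρ u ∈ Subgroup.closure {s, ρ 1} →
        ρ (tt x * u) ∈ Subgroup.closure {s, ρ 1} := fun u hu => by
      rw [← hs]; exact Subgroup.mul_mem _ (Subgroup.mul_mem _ hsC hu) (Subgroup.inv_mem _ hsC)
    have hst : ∀ u, ρ u ∈ Subgroup.closure {s, ρ 1} →
        ρ (star (tt x) * u) ∈ Subgroup.closure {s, ρ 1} := fun u hu => by
      have h5 := hs (star (tt x) * u)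
      rw [← mul_assoc, tt_mul_star, one_mul] at h5
      have : ρ (star (tt x) * u) = s⁻¹ * ρ u * s := by rw [← h5]; group
      rw [this]; exact Subgroup.mul_mem _ (Subgroup.mul_mem _ (Subgroup.inv_mem _ hsC) hu) hsC
    have hxm : ∀ u, ρ u ∈ Subgroup.closure {s, ρ 1} →
        ρ (algebraMap W (SS x) x * u) ∈ Subgroup.closure {s, ρ 1} := fun u hu => by
      have : algebraMap W (SS x) x * u = (tt x * u + star (tt x) * u) + (-u + -u) := by
        rw [← tt_add_star]; ring
      rw [this]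
      exact hadd _ _ (hadd _ _ (htt u hu) (hst u hu)) (hadd _ _ (hneg u hu) (hneg u hu))
    have hint : ∀ (k : ℤ) u, ρ u ∈ Subgroup.closure {s, ρ 1} →
        ρ ((k : SS x) * u) ∈ Subgroup.closure {s, ρ 1} := fun k u hu => by
      induction k using Int.induction_on with
      | zero => simpa using hneg (0 : SS x) (by rw [(hker 0).2 (dvd_zero _)]; exact Subgroup.one_mem _)
      | succ n ih => push_cast at ih ⊢; rw [add_mul, one_mul]; exact hadd _ _ ih hu
      | pred n ih => push_cast at ih ⊢; rw [sub_mul, one_mul, sub_eq_add_neg]; exact hadd _ _ ih (hneg _ hu)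
    have hpol : ∀ (P : Polynomial ℤ) u, ρ u ∈ Subgroup.closure {s, ρ 1} →
        ρ (algebraMap W (SS x) (Polynomial.aeval x P) * u) ∈ Subgroup.closure {s, ρ 1} := by
      intro P
      induction P using Polynomial.induction_on with
      | C a => intro u hu; simpa using hint a u hu
      | add P Q hP hQ => intro u hu; rw [map_add, map_add, add_mul]; exact hadd _ _ (hP u hu) (hQ u hu)
      | monomial k a ih =>
        intro u hu
        have := hxm _ (ih u hu)
        convert this using 2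
        simp only [map_mul, map_pow, Polynomial.aeval_X, Polynomial.aeval_C, pow_succ]
        ring
    have hall : ∀ (w : W) u, ρ u ∈ Subgroup.closure {s, ρ 1} →
        ρ (algebraMap W (SS x) w * u) ∈ Subgroup.closure {s, ρ 1} := fun w u hu => by
      obtain ⟨P, rfl⟩ := hW w
      exact hpol P u hu
    have hm : m = algebraMap W (SS x) m.re * 1 + algebraMap W (SS x) m.im * (tt x * 1) := by
      ext <;> simp [algebraMap_eq, re_one, im_one]
    rw [hm]
    exact hadd _ _ (hall _ _ h1C) (hall _ _ (htt _ h1C))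
  · let B : Subgroup (GG x ⧸ Nn) :=
      { carrier := Set.range ρ
        one_mem' := ⟨0, (hker 0).2 (dvd_zero _)⟩
        mul_mem' := by rintro _ _ ⟨u, rfl⟩ ⟨v, rfl⟩; exact ⟨u + v, hρ u v⟩
        inv_mem' := by
          rintro _ ⟨u, rfl⟩
          exact ⟨-u, by rw [eq_inv_iff_mul_eq_one, ← hρ, neg_add_cancel, hker]; exact dvd_zero _⟩ }
    have hB : B.Normal := by
      refine ⟨?_⟩
      rintro _ ⟨u, rfl⟩ γ
      obtain ⟨m, n, rfl⟩ := hgen γ
      have hz : ∀ (n : ℤ), s ^ n * ρ u * (s ^ n)⁻¹ = ρ (ta x n * u) := by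
        intro n
        rw [hsz]
        simp only [ρ]
        rw [← QuotientGroup.mk_inv, ← QuotientGroup.mk_mul, ← QuotientGroup.mk_mul]
        exact heq _ _ 0 (by simp) (by simp)
      refine ⟨ta x n * u, ?_⟩
      rw [← hz, show ρ m * s ^ n * ρ u * (ρ m * s ^ n)⁻¹ = ρ m * (s ^ n * ρ u * (s ^ n)⁻¹) * (ρ m)⁻¹ by group,
        hz, hab m, mul_inv_cancel_right]
    refine ⟨B, hB, ?_, ?_⟩
    · rintro _ ⟨u, rfl⟩ _ ⟨v, rfl⟩
      exact hab u v
    · refine ⟨⟨(s : (GG x ⧸ Nn) ⧸ B), fun y => ?_⟩⟩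
      induction y using QuotientGroup.induction_on with
      | H γ =>
        obtain ⟨m, n, rfl⟩ := hgen γ
        refine ⟨n, ?_⟩
        simp only
        have hmB : ρ m ∈ B := ⟨m, rfl⟩
        rw [QuotientGroup.mk_mul, (QuotientGroup.eq_one_iff (ρ m)).2 hmB, one_mul]
        rfl
  · let J : Ideal W := Ideal.span {F, g}
    let C : Ideal W := Ideal.span {(2 : W)} * J ⊔ Ideal.span {(p : W)} * J
    have hF : F ∈ J := Ideal.subset_span (by simp)
    have hgJ : g ∈ J := Ideal.subset_span (by simp)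
    have C2 : ∀ w ∈ J, 2 * w ∈ C := fun w hw =>
      Ideal.mem_sup_left (Ideal.mul_mem_mul (Ideal.mem_span_singleton_self _) hw)
    have Cp : ∀ w ∈ J, p * w ∈ C := fun w hw =>
      Ideal.mem_sup_right (Ideal.mul_mem_mul (Ideal.mem_span_singleton_self _) hw)
    obtain ⟨f, hf, hf'⟩ := cocycle_of_char Nn (fun a => Ideal.Quotient.mk C a.c)
      (by
        rintro a ⟨k, hk, u, hu⟩ b ⟨l, hl, v, hv⟩
        rw [← map_add, Ideal.Quotient.eq, mul_c, add_sub_cancel_left]
        have e1 : a.m = algebraMap W (SS x) g * u - k * m0 := by rw [← hu]; ring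
        have e2 : ta x a.n * b.m = algebraMap W (SS x) g * (ta x a.n * v) - l * m0 := by
          linear_combination (ta x a.n) * hv - (l : SS x) * ta_fix h0 a.n
        rw [e1, e2]
        generalize ta x a.n * v = v'
        have e3 : be (algebraMap W (SS x) g * u - (k : SS x) * m0)
            (algebraMap W (SS x) g * v' - (l : SS x) * m0) =
            p * ((g1 * be u v') * g - (g1 * (l * be u (tt x - 1) + k * be (tt x - 1) v')) * F) := by
          simp [be, m0, algebraMap_eq, re_one, im_one, hg]; ring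
        rw [e3]
        exact Cp _ (J.sub_mem (J.mul_mem_left _ hgJ) (J.mul_mem_left _ hF)))
      (by
        rintro b ⟨k, hk, u, hu⟩ a
        rw [Ideal.Quotient.eq, conj_c]
        obtain ⟨r, hr⟩ := ta_dvd hq k
        obtain ⟨z, hz⟩ := hN
        have e2 : ta x a.n * b.m = algebraMap W (SS x) g * (ta x a.n * u) - k * m0 := by
          linear_combination (ta x a.n) * hu - (k : SS x) * ta_fix h0 a.n
        have e4 : (p : SS x) ^ (N + 1) = algebraMap W (SS x) (p * (g * z)) := by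
          rw [← hz]; simp [pow_succ']
        rw [hk, hr, e4, e2]
        generalize ta x a.n * u = u'
        generalize hy : a.m + (algebraMap W (SS x) g * u' - (k : SS x) * m0) = y
        have e3 : b.c + 2 * be a.m (algebraMap W (SS x) g * u' - (k : SS x) * m0) -
            be y (algebraMap W (SS x) (p * (g * z)) * r * a.m) - b.c =
            2 * (be a.m u' * g - (k * be a.m (tt x - 1)) * F) - p * ((z * be y (r * a.m)) * g) := by
          simp [be, m0, algebraMap_eq, re_one, im_one]; ring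
        rw [e3]
        exact C.sub_mem (C2 _ (J.sub_mem (J.mul_mem_left _ hgJ) (J.mul_mem_left _ hF)))
          (Cp _ (J.mul_mem_left _ hgJ)))
    refine H2_criterion φ hφ (fun w => ρ (algebraMap W (SS x) w * tt x)) (fun _ => ρ 1)
      (fun w => hab _ _) (fun E _ π l hl hc => ?_) f hf (fun w hw => ?_)
    · have := upper hW hxF hann ρ hρ s hs hgen hker (p ^ j) (p ^ N)
        (by rw [← zpow_natCast, hsz]; exact (heq _ _ 1 (by simp [q]) (by simp [m0])).symm)
        (by
          rw [← zpow_natCast, hsz]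
          simp only [ρ]
          rw [← QuotientGroup.mk_mul, ← QuotientGroup.mk_mul]
          refine (heq _ _ 0 (by simp) ?_).symm
          simpa using hgp'.trans hj)
        (hρN 1) E π l hl hc
      simpa only [hφ'] using this
    · have e : ⁅(⟨algebraMap W (SS x) w * tt x, 0, 0⟩ : GG x), (⟨1, 0, 0⟩ : GG x)⁆ =
          ⟨0, 2 * w, 0⟩ := by
        rw [commutatorElement_def]
        refine GG.ext ?_ ?_ ?_ <;> simp [be, algebraMap_eq, re_one, im_one]
        ring
      have h5 := hf' ⟨algebraMap W (SS x) w * tt x, 0, 0⟩ ⟨1, 0, 0⟩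
        (by rw [e]; exact ⟨0, by simp, by simp⟩)
      rw [e] at h5
      have h6 : Ideal.Quotient.mk C (2 * w) = 0 := by
        rw [← h5, sub_eq_zero]; exact hw
      rw [Ideal.Quotient.eq_zero_iff_mem] at h6
      obtain ⟨y, hy, z, hz, hyz⟩ := Submodule.mem_sup.1 h6
      obtain ⟨y', hy', rfl⟩ := Ideal.mem_span_singleton_mul.1 hy
      obtain ⟨z', hz', rfl⟩ := Ideal.mem_span_singleton_mul.1 hz
      rw [hφ']
      rcases hp.eq_two_or_odd' with rfl | ho
      · have : w - (y' + z') = 0 := h2 _ (by push_cast at hyz; linear_combination -hyz)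
        rw [sub_eq_zero.1 this]; exact J.add_mem hy' hz'
      · obtain ⟨r, hr⟩ := ho.pow (n := N)
        obtain ⟨z, hz⟩ := hN
        have h7 : (p : W) ^ N = 2 * r + 1 := by exact_mod_cast congrArg (Nat.cast : ℕ → W) hr
        have : w = (z * w) * g - (r * 2) * y' - (r * p) * z' := by
          linear_combination w * hz - w * h7 + (r : W) * hyz
        rw [this]
        exact J.sub_mem (J.sub_mem (J.mul_mem_left _ hgJ) (J.mul_mem_left _ hy'))
          (J.mul_mem_left _ hz')

theorem main_abs (p : ℕ) (hp : p.Prime) (x F g1 : W)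
    (hW : ∀ w : W, ∃ P : Polynomial ℤ, Polynomial.aeval x P = w)
    (hxF : x * F = 0) (hann : ∀ h, p * g1 ∣ x * h → ∃ k : ℤ, p * g1 ∣ h - k * F)
    (N K : ℕ) (hN : p * g1 ∣ (p : W) ^ N) (hK : (p : W) ∣ x ^ K)
    (h2 : ∀ w : W, 2 * w = 0 → w = 0) [Finite (W ⧸ Ideal.span {p * g1})] (hnt : ¬ p * g1 ∣ 1)
    {A : Type} [AddCommGroup A] (φ : W →+ A) (hφ : Function.Surjective φ)
    (hφ' : ∀ w, φ w = 0 ↔ w ∈ Ideal.span {F, p * g1}) :
    ∃ k0 : ℕ, ∀ k, k0 ≤ k → ∃ (G : Type) (_ : Group G), Nat.card G = p ^ k ∧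
      (∃ x y : G, x * y ≠ y * x) ∧ (∃ a b : G, Subgroup.closure {a, b} = ⊤) ∧
      (∃ (B : Subgroup G) (_ : B.Normal), (∀ u ∈ B, ∀ v ∈ B, u * v = v * u) ∧ IsCyclic (G ⧸ B)) ∧
      Nonempty (A ≃+ (groupHomology.H2 (Rep.trivial ℤ G ℤ))) := by
  obtain ⟨j0, hj0⟩ := exists_ta_dvd p hp x K N hK
  have key : ∀ j, j0 ≤ j → (p : SS x) ^ (N + 1) ∣ ta x (p ^ j : ℕ) - 1 := by
    intro j hj
    have := ta_dvd hj0 (p ^ (j - j0) : ℕ)
    rwa [← Nat.cast_mul, ← pow_add, Nat.add_sub_cancel' hj] at this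
  have main := fun (j : ℕ) (hj : j0 ≤ j) =>
    main_j p hp x F g1 hW hxF hann N hN h2 hnt φ hφ hφ' j (key j hj)
  have hfact : Fact p.Prime := ⟨hp⟩
  have hpos : 0 < Nat.card (W ⧸ Ideal.span {p * g1}) := Nat.card_pos
  obtain ⟨e, he⟩ : ∃ e, Nat.card (W ⧸ Ideal.span {p * g1}) ^ 2 * p ^ N = p ^ e := by
    obtain ⟨G, _, hc, hP, -⟩ := main j0 le_rfl
    have hfin : Finite G := Nat.finite_of_card_ne_zero (by
      rw [hc]; have := hp.pos; positivity)
    obtain ⟨c, hc'⟩ := IsPGroup.iff_card.1 hP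
    have hd : Nat.card (W ⧸ Ideal.span {p * g1}) ^ 2 * p ^ N ∣ p ^ c := by
      rw [← hc', hc]
      exact ⟨p ^ j0, by ring⟩
    obtain ⟨e, -, he⟩ := (Nat.dvd_prime_pow hp).1 hd
    exact ⟨e, he⟩
  refine ⟨j0 + e, fun k hk => ?_⟩
  obtain ⟨G, i, hc, -, h3⟩ := main (k - e) (by omega)
  refine ⟨G, i, ?_, h3⟩
  rw [hc, show Nat.card (W ⧸ Ideal.span {p * g1}) ^ 2 * (p ^ (k - e) * p ^ N)
    = (Nat.card (W ⧸ Ideal.span {p * g1}) ^ 2 * p ^ N) * p ^ (k - e) by ring, he, ← pow_add]
  congr 1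
  omega

end Pool.Agent.H68.SM
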