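import Pool.Agent.H68.SM.C

set_option autoImplicit false

namespace Pool.Agent.H68.SM

open Polynomial

/-- remainder as an additive map -/
noncomputable def md (F : ℤ[X]) : ℤ[X] →+ ℤ[X] :=
  AddMonoidHom.mk' (fun P => P %ₘ F) (fun a b => add_modByMonic a b)

/-- quotient as an additive map -/
noncomputable def dv (F : ℤ[X]) (hF : F.Monic) : ℤ[X] →+ ℤ[X] :=
  AddMonoidHom.mk' (fun P => P /ₘ F) (fun a b => by
    apply mul_left_cancel₀ hF.ne_zero
    have h1 := modByMonic_add_div a F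
    have h2 := modByMonic_add_div b F
    have h3 := modByMonic_add_div (a + b) F
    rw [add_modByMonic] at h3
    linear_combination h3 - h1 - h2)

lemma hom_nat (f : ℤ[X] →+ ℤ[X]) (n : ℕ) (P : ℤ[X]) : f (n * P) = n * f P := by
  rw [← nsmul_eq_mul, map_nsmul, nsmul_eq_mul]

/-- a complete intersection with prescribed additive type -/
structure Good (p : ℕ) {ι : Type} (e : ι → ℕ) (F g : ℤ[X]) (ψ : ℤ[X] →+ (ι → ℤ)) : Prop where
  monic : F.Monic
  deg : g.natDegree ≤ F.natDegree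
  nil : (p : ℤ[X]) ∣ F - X ^ F.natDegree
  const : ∃ a : ℕ, (F.coeff 0 = p ^ a ∧ g.coeff 0 = 0) ∨ (F.coeff 0 = 0 ∧ g.coeff 0 = p ^ a)
  surj : Function.Surjective ψ
  kill : ∀ U, ψ (F * U) = 0
  ker : ∀ (d : ℕ) P, (∀ i, (p : ℤ) ^ (e i + d) ∣ ψ P i) ↔ P ∈ Ideal.span {F, (p ^ d : ℕ) * g}

theorem good_empty (p : ℕ) {ι : Type} [IsEmpty ι] (e : ι → ℕ) : Good p e 1 0 0 where
  monic := monic_one
  deg := by simp
  nil := by simp
  const := ⟨0, Or.inl (by simp)⟩
  surj := fun y => ⟨0, Subsingleton.elim _ _⟩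
  kill := fun _ => rfl
  ker := fun d P => by
    simp only [IsEmpty.forall_iff, true_iff]
    exact Ideal.mem_span_pair.2 ⟨P, 0, by simp⟩

theorem good_step (p : ℕ) {ι : Type} [Fintype ι] (e : ι → ℕ) {F g : ℤ[X]}
    {ψ : ℤ[X] →+ ({i // e i ≠ 0} → ℤ)} (h : Good p (fun i : {i // e i ≠ 0} => e i - 1) F g ψ) :
    ∃ F g ψ, Good p e F g ψ := by
  classical
  have hker : ∀ (d : ℕ) P, (∀ i : {i // e i ≠ 0}, (p : ℤ) ^ (e i + d) ∣ ψ P i) ↔
      P ∈ Ideal.span {F, (p ^ d : ℕ) * (p * g)} := by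
    intro d P
    have := h.ker (d + 1) P
    have e1 : ∀ i : {i // e i ≠ 0}, e i - 1 + (d + 1) = e i + d := fun i => by
      have := i.2; omega
    simp only [e1] at this
    rw [this]; push_cast; rw [pow_succ, mul_assoc]
  have hpg : ((p : ℤ[X]) * g).natDegree ≤ F.natDegree :=
    (natDegree_C_mul_le (p : ℤ) g).trans h.deg
  by_cases hall : ∀ i, e i ≠ 0
  · let ψ' : ℤ[X] →+ (ι → ℤ) := AddMonoidHom.pi fun i =>
      (Pi.evalAddMonoidHom (fun _ => ℤ) ⟨i, hall i⟩).comp ψ
    refine ⟨F, p * g, ψ', h.monic, hpg, h.nil, ?_, fun y => ?_, fun U => ?_, fun d P => ?_⟩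
    · obtain ⟨a, ⟨h1, h2⟩ | ⟨h1, h2⟩⟩ := h.const
      · exact ⟨a, Or.inl ⟨h1, by simp [h2]⟩⟩
      · exact ⟨a + 1, Or.inr ⟨h1, by simp [h2, pow_succ']⟩⟩
    · obtain ⟨P, hP⟩ := h.surj (fun i => y i)
      exact ⟨P, funext fun i => congrFun hP ⟨i, hall i⟩⟩
    · exact funext fun i => congrFun (h.kill U) ⟨i, hall i⟩
    · rw [← hker]
      exact ⟨fun H i => H i, fun H i => H ⟨i, hall i⟩⟩
  · let k := Fintype.card {i // e i = 0}
    have hk : 0 < k := by
      push Not at hall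
      obtain ⟨i, hi⟩ := hall
      exact Fintype.card_pos_iff.2 ⟨⟨i, hi⟩⟩
    let σ : {i // e i = 0} ≃ Fin k := Fintype.equivFin _
    let F0 : ℤ[X] := X ^ k * F + (p : ℤ[X]) * g
    have hm1 : (X ^ k * F).Monic := (monic_X_pow k).mul h.monic
    have hd1 : (X ^ k * F).natDegree = k + F.natDegree := by
      rw [(monic_X_pow k).natDegree_mul h.monic, natDegree_X_pow]
    have hlt : ((p : ℤ[X]) * g).natDegree < (X ^ k * F).natDegree := by omega
    have hm0 : F0.Monic := hm1.add_of_left (degree_lt_degree hlt)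
    have hd0 : F0.natDegree = k + F.natDegree := by
      rw [← hd1]; exact natDegree_add_eq_left_of_natDegree_lt hlt
    let ψ' : ℤ[X] →+ (ι → ℤ) := AddMonoidHom.pi fun i =>
      if hi : e i = 0 then
        ((lcoeff ℤ (σ ⟨i, hi⟩ : ℕ)).toAddMonoidHom.comp (dv F h.monic)).comp (md F0)
      else ((Pi.evalAddMonoidHom (fun _ => ℤ) ⟨i, hi⟩).comp ψ).comp (md F0)
    have v0 : ∀ P i (hi : e i = 0), ψ' P i = (dv F h.monic (md F0 P)).coeff (σ ⟨i, hi⟩) := by
      intro P i hi; simp [ψ', hi]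
    have v1 : ∀ P i (hi : e i ≠ 0), ψ' P i = ψ (md F0 P) ⟨i, hi⟩ := by
      intro P i hi; simp [ψ', hi]
    have hmdv : ∀ P, md F P + F * dv F h.monic P = P := fun P => modByMonic_add_div P F
    have hmdv0 : ∀ P, md F0 P + F0 * dv F0 hm0 P = P := fun P => modByMonic_add_div P F0
    have hdeg : ∀ P n, k ≤ n → (dv F h.monic (md F0 P)).coeff n = 0 := by
      intro P n hn
      by_cases h0 : dv F h.monic (md F0 P) = 0
      · simp [h0]
      apply coeff_eq_zero_of_natDegree_lt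
      have a1 : (md F0 P).natDegree < F0.natDegree :=
        natDegree_modByMonic_lt P hm0 (fun h1 => by rw [h1] at hd0; simp at hd0; omega)
      have a2 : (dv F h.monic (md F0 P)).natDegree = (md F0 P).natDegree - F.natDegree :=
        natDegree_divByMonic _ h.monic
      omega
    refine ⟨F0, F, ψ', hm0, by omega, ?_, ?_, fun y => ?_, fun U => ?_, fun d P => ?_⟩
    · rw [hd0, pow_add]
      have := dvd_add (h.nil.mul_left (X ^ k)) (dvd_mul_right (p : ℤ[X]) g)
      convert this using 1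
      simp only [F0]; ring
    · have c0 : F0.coeff 0 = p * g.coeff 0 := by
        simp [F0, hk.ne]
      obtain ⟨a, ⟨h1, h2⟩ | ⟨h1, h2⟩⟩ := h.const
      · exact ⟨a, Or.inr ⟨by simp [c0, h2], h1⟩⟩
      · exact ⟨a + 1, Or.inl ⟨by simp [c0, h2, pow_succ'], h1⟩⟩
    · obtain ⟨P', hP'⟩ := h.surj (fun i => y i)
      let Q0 : ℤ[X] := ∑ n : Fin k, monomial n (y (σ.symm n))
      have hQ : ∀ n : Fin k, Q0.coeff n = y (σ.symm n) := by
        intro n
        simp only [Q0, finsetSum_coeff, coeff_monomial]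
        rw [Finset.sum_eq_single n]
        · simp
        · intro b _ hb
          exact if_neg (fun h => hb (Fin.ext h))
        · simp
      have hQd : Q0.degree < k := by
        refine (degree_lt_iff_coeff_zero _ _).2 fun m hm => ?_
        simp only [Q0, finsetSum_coeff, coeff_monomial]
        exact Finset.sum_eq_zero fun b _ => if_neg (by have := b.2; omega)
      have hr : (md F P').degree < F.degree := degree_modByMonic_lt P' h.monic
      have hdF : F.degree = F.natDegree := degree_eq_natDegree h.monic.ne_zero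
      have hdF0 : F0.degree = (k + F.natDegree : ℕ) := by
        rw [degree_eq_natDegree hm0.ne_zero, hd0]
      have a1 : md F0 (md F P' + F * Q0) = md F P' + F * Q0 := by
        refine (modByMonic_eq_self_iff hm0).2 ((degree_add_le _ _).trans_lt (max_lt ?_ ?_))
        · refine hr.trans_le ?_
          rw [hdF, hdF0]; exact_mod_cast Nat.le_add_left _ _
        · rw [degree_mul, hdF, hdF0, Nat.cast_add, add_comm (k : WithBot ℕ)]
          exact WithBot.add_lt_add_left (by simp) hQd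
      have a2 : dv F h.monic (md F P' + F * Q0) = Q0 :=
        (div_modByMonic_unique Q0 (md F P') h.monic ⟨rfl, hr⟩).1
      refine ⟨md F P' + F * Q0, funext fun i => ?_⟩
      by_cases hi : e i = 0
      · rw [v0 _ _ hi, a1, a2, hQ]; simp
      · rw [v1 _ _ hi, a1, map_add, h.kill, add_zero]
        have := congrArg ψ (hmdv P')
        rw [map_add, h.kill, add_zero] at this
        rw [this, hP']
    · have a1 : md F0 (F0 * U) = 0 := self_mul_modByMonic hm0
      funext i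
      by_cases hi : e i = 0
      · rw [v0 _ _ hi, a1]; simp
      · rw [v1 _ _ hi, a1]; simp
    · constructor
      · intro H
        have b1 : md F0 P ∈ Ideal.span {F, (p ^ d : ℕ) * (p * g)} := by
          rw [← hker]; intro i; rw [← v1 _ _ i.2]; exact H i
        have b2 : C ((p : ℤ) ^ d) ∣ dv F h.monic (md F0 P) := by
          rw [C_dvd_iff_dvd_coeff]
          intro n
          by_cases hn : n < k
          · have := H (σ.symm ⟨n, hn⟩)
            rw [v0 _ _ (σ.symm ⟨n, hn⟩).2, (σ.symm ⟨n, hn⟩).2, zero_add] at this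
            simpa using this
          · rw [hdeg _ _ (not_lt.1 hn)]; simp
        obtain ⟨Q, hQ⟩ := b2
        obtain ⟨u, v, huv⟩ := Ideal.mem_span_pair.1 b1
        have b3 : md F (md F0 P) = (p ^ d : ℕ) * md F (v * (p * g)) := by
          rw [← huv, map_add, ← hom_nat]
          have : md F (u * F) = 0 := mul_self_modByMonic h.monic
          rw [this, zero_add]; congr 1; ring
        refine Ideal.mem_span_pair.2 ⟨dv F0 hm0 P + (p ^ d : ℕ) * v,
          Q - v * X ^ k - dv F h.monic (v * (p * g)), ?_⟩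
        have c1 := hmdv0 P
        have c2 := hmdv (md F0 P)
        have c3 := hmdv (v * (p * g))
        rw [b3, hQ] at c2
        simp only [F0, map_pow, map_natCast, Nat.cast_pow] at c1 c2 ⊢
        linear_combination c1 + c2 - (p : ℤ[X]) ^ d * c3
      · intro H i
        obtain ⟨u, v, rfl⟩ := Ideal.mem_span_pair.1 H
        have b1 : md F0 (u * F0 + v * ((p ^ d : ℕ) * F)) = (p ^ d : ℕ) * md F0 (v * F) := by
          rw [map_add, ← hom_nat]
          have : md F0 (u * F0) = 0 := mul_self_modByMonic hm0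
          rw [this, zero_add]; congr 1; ring
        by_cases hi : e i = 0
        · rw [v0 _ _ hi, b1, hom_nat, hi, zero_add, coeff_natCast_mul]; simp
        · rw [v1 _ _ hi, b1]
          refine (hker d _).2 ?_ ⟨i, hi⟩
          refine Ideal.mem_span_pair.2 ⟨((p ^ d : ℕ) : ℤ[X]) * (v - X ^ k * dv F0 hm0 (v * F)),
            -dv F0 hm0 (v * F), ?_⟩
          have c1 := hmdv0 (v * F)
          simp only [F0] at c1 ⊢
          linear_combination -((p ^ d : ℕ) : ℤ[X]) * c1

theorem good_exists (p : ℕ) (n : ℕ) : ∀ (ι : Type) [Fintype ι] (e : ι → ℕ), (∀ i, e i ≤ n) →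
    ∃ F g ψ, Good p e F g ψ := by
  induction n with
  | zero =>
    intro ι _ e he
    haveI : IsEmpty {i // e i ≠ 0} := ⟨fun i => i.2 (Nat.le_zero.1 (he i))⟩
    exact good_step p e (good_empty p _)
  | succ n ih =>
    intro ι _ e he
    classical
    obtain ⟨F, g, ψ, h⟩ := ih {i // e i ≠ 0} (fun i => e i - 1) (fun i => by have := he i; omega)
    exact good_step p e h

theorem main (p : ℕ) (hp : p.Prime) (A : Type) [AddCommGroup A] [Finite A]
    (hA : ∀ a : A, ∃ n : ℕ, p ^ n • a = 0) :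
    ∃ k0 : ℕ, ∀ k, k0 ≤ k → ∃ (G : Type) (_ : Group G), Nat.card G = p ^ k ∧
      (∃ x y : G, x * y ≠ y * x) ∧ (∃ a b : G, Subgroup.closure {a, b} = ⊤) ∧
      (∃ (B : Subgroup G) (_ : B.Normal), (∀ u ∈ B, ∀ v ∈ B, u * v = v * u) ∧ IsCyclic (G ⧸ B)) ∧
      Nonempty (A ≃+ (groupHomology.H2 (Rep.trivial ℤ G ℤ))) := by
  classical
  obtain ⟨ι, _, n, hn, ⟨ε⟩⟩ := AddCommGroup.equiv_directSum_zmod_of_finite' A
  let ε' : A ≃+ (∀ i, ZMod (n i)) := ε.trans (DirectSum.addEquivProd _)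
  have hpe : ∀ i, ∃ e, n i = p ^ (e + 1) := by
    intro i
    obtain ⟨m, hm⟩ := hA (ε'.symm (Pi.single i 1))
    have h1 := congrFun (congrArg ε' hm) i
    simp only [map_nsmul, AddEquiv.apply_symm_apply, Pi.smul_apply, Pi.single_eq_same, map_zero,
      Pi.zero_apply, nsmul_eq_mul, mul_one] at h1
    obtain ⟨e, -, he⟩ := (Nat.dvd_prime_pow hp).1 ((ZMod.natCast_eq_zero_iff _ _).1 h1)
    cases e with
    | zero => have := hn i; simp at he; omega
    | succ e => exact ⟨e, he⟩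
  choose e he using hpe
  obtain ⟨F, g, ψ, h⟩ := good_exists p (Finset.univ.sup e) ι e
    (fun i => Finset.le_sup (Finset.mem_univ i))
  let c : (ι → ℤ) →+ (∀ i, ZMod (n i)) := AddMonoidHom.pi fun i =>
    (Int.castAddHom (ZMod (n i))).comp (Pi.evalAddMonoidHom (fun _ => ℤ) i)
  have hc : Function.Surjective c := fun y =>
    ⟨fun i => (ZMod.intCast_surjective (y i)).choose,
      funext fun i => (ZMod.intCast_surjective (y i)).choose_spec⟩
  let φ0 : ℤ[X] →+ A := ε'.symm.toAddMonoidHom.comp (c.comp ψ)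
  have hφ0 : Function.Surjective φ0 := ε'.symm.surjective.comp (hc.comp h.surj)
  have hφ0' : ∀ P, φ0 P = 0 ↔ ∃ u v, u * F + v * (p * (g + F)) = P := by
    intro P
    have a1 : φ0 P = 0 ↔ ∀ i, (p : ℤ) ^ (e i + 1) ∣ ψ P i := by
      change ε'.symm (c (ψ P)) = 0 ↔ _
      rw [map_eq_zero_iff _ ε'.symm.injective, funext_iff]
      refine forall_congr' fun i => ?_
      change ((ψ P i : ℤ) : ZMod (n i)) = 0 ↔ _
      rw [ZMod.intCast_zmod_eq_zero_iff_dvd, he]; simp
    rw [a1, h.ker, Ideal.mem_span_pair]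
    constructor
    · rintro ⟨u, v, rfl⟩; exact ⟨u - v * p, v, by simp; ring⟩
    · rintro ⟨u, v, rfl⟩; exact ⟨u + v * p, v, by simp; ring⟩
  obtain ⟨a, ha⟩ : ∃ a : ℕ, (g + F).coeff 0 = p ^ a := by
    obtain ⟨a, ⟨h1, h2⟩ | ⟨h1, h2⟩⟩ := h.const <;> exact ⟨a, by simp [h1, h2]⟩
  have hm : (X * F).Monic := monic_X.mul h.monic
  obtain ⟨W, _, μ, hμ, hμ0, hfg⟩ : ∃ (W : Type) (_ : CommRing W) (μ : ℤ[X] →+* W),
      Function.Surjective μ ∧ (∀ P, μ P = 0 ↔ X * F ∣ P) ∧ AddGroup.FG W :=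
    ⟨AdjoinRoot (X * F), inferInstance, AdjoinRoot.mk (X * F), AdjoinRoot.mk_surjective,
      fun P => AdjoinRoot.mk_eq_zero,
      Module.Finite.iff_addGroup_fg.1 (AdjoinRoot.powerBasis' hm).finite⟩
  have hxF : μ X * μ F = 0 := by rw [← map_mul, hμ0]
  obtain ⟨φ, hφ⟩ : ∃ φ : W →+ A, ∀ P, φ (μ P) = φ0 P := by
    refine ⟨μ.toAddMonoidHom.liftOfSurjective hμ ⟨φ0, fun P hP => ?_⟩, fun P => ?_⟩
    · obtain ⟨U, rfl⟩ := (hμ0 P).1 hP
      exact (hφ0' _).2 ⟨U * X, 0, by ring⟩
    · exact AddMonoidHom.liftOfRightInverse_comp_apply _ _ _ _ _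
  have hp0 : (p : ℤ) ≠ 0 := by exact_mod_cast hp.ne_zero
  obtain ⟨M, hM⟩ := hA (φ0 1)
  rw [← map_nsmul, hφ0'] at hM
  obtain ⟨u, v, huv⟩ := hM
  have hN : (p : W) * μ (g + F) ∣ (p : W) ^ (M + (a + 1)) := by
    have b1 := congrArg μ (divX_mul_X_add (g + F))
    have b2 := congrArg μ huv
    rw [ha] at b1
    simp only [map_add, map_mul, map_pow, map_natCast, nsmul_eq_mul, Nat.cast_pow, mul_one] at b1 b2
    refine ⟨p ^ M - p * μ (g + F).divX * μ X * μ v, ?_⟩
    simp only [map_add]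
    linear_combination (p : W) ^ (M + 1) * b1 + (p * μ (g + F).divX * μ X) * b2
      - (p * μ (g + F).divX * μ u) * hxF
  haveI : Finite (W ⧸ Ideal.span {(p : W) * μ (g + F)}) := by
    haveI : AddGroup.FG (W ⧸ Ideal.span {(p : W) * μ (g + F)}) :=
      AddGroup.fg_of_surjective (f := (Ideal.Quotient.mk _).toAddMonoidHom)
        Ideal.Quotient.mk_surjective
    refine AddCommGroup.finite_of_fg_isAddTorsion _ fun w => ?_
    refine isOfFinAddOrder_iff_nsmul_eq_zero.2 ⟨p ^ (M + (a + 1)), pow_pos hp.pos _, ?_⟩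
    obtain ⟨w, rfl⟩ := Ideal.Quotient.mk_surjective w
    rw [← map_nsmul, Ideal.Quotient.eq_zero_iff_mem, Ideal.mem_span_singleton, nsmul_eq_mul]
    push_cast
    exact hN.mul_right _
  refine main_abs p hp (μ X) (μ F) (μ (g + F)) (fun w => ?_) hxF (fun w hw => ?_) _
    (F.natDegree + 1) hN ?_ (fun w hw => ?_) (fun h1 => ?_) φ (fun y => ?_) (fun w => ?_)
  · obtain ⟨P, rfl⟩ := hμ w
    refine ⟨P, ?_⟩
    induction P using Polynomial.induction_on with
    | C a => simp
    | add p q hp hq => rw [map_add, map_add, hp, hq]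
    | monomial k a ih => simp
  · obtain ⟨H, rfl⟩ := hμ w
    obtain ⟨V, hV⟩ := hw
    obtain ⟨V, rfl⟩ := hμ V
    obtain ⟨U, hU⟩ := (hμ0 (X * H - (p : ℤ[X]) * (g + F) * V)).1 (by
      simp only [map_sub, map_mul, map_natCast]; rw [hV, sub_self])
    have b1 := congrArg (fun P => P.coeff 0) hU
    simp only [coeff_sub, mul_coeff_zero, coeff_X_zero, ha, coeff_natCast_ite] at b1
    have b2 : V.coeff 0 = 0 := by simpa [hp.ne_zero] using b1
    obtain ⟨V', rfl⟩ := X_dvd_iff.2 b2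
    have b3 : H = F * U + p * (g + F) * V' := by
      apply mul_left_cancel₀ (X_ne_zero (R := ℤ))
      linear_combination hU
    refine ⟨U.coeff 0, μ V', ?_⟩
    have b4 := congrArg μ (divX_mul_X_add U)
    rw [b3]
    simp only [map_add, map_mul, map_natCast, eq_intCast, map_intCast] at b4 ⊢
    linear_combination -(μ F) * b4 + μ U.divX * hxF
  · obtain ⟨r, hr⟩ := h.nil
    have b1 := congrArg μ hr
    simp only [map_sub, map_mul, map_pow, map_natCast] at b1
    exact ⟨-(μ X * μ r), by linear_combination hxF - μ X * b1⟩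
  · obtain ⟨H, rfl⟩ := hμ w
    have b1 : X * F ∣ ((2 : ℕ) : ℤ[X]) * H := (hμ0 _).1 (by
      rw [map_mul, map_natCast]; exact_mod_cast hw)
    rw [← modByMonic_eq_zero_iff_dvd hm] at b1
    have b2 := (hom_nat (md (X * F)) 2 H).symm.trans b1
    rw [hμ0, ← modByMonic_eq_zero_iff_dvd hm]
    exact (mul_eq_zero.1 b2).resolve_left (by norm_num)
  · obtain ⟨V, hV⟩ := h1
    obtain ⟨V, rfl⟩ := hμ V
    obtain ⟨U, hU⟩ := (hμ0 (1 - p * (g + F) * V)).1 (by
      simp only [map_sub, map_mul, map_natCast, map_one]; rw [← hV, sub_self])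
    have b1 := congrArg (fun P => P.coeff 0) hU
    simp only [coeff_sub, mul_coeff_zero, coeff_X_zero, ha, coeff_natCast_ite, coeff_one_zero,
      zero_mul] at b1
    have b2 : (p : ℤ) ∣ 1 := ⟨p ^ a * V.coeff 0, by simp at b1; linear_combination b1⟩
    exact hp.one_lt.ne' (by exact_mod_cast Int.eq_one_of_dvd_one (by positivity) b2)
  · obtain ⟨P, rfl⟩ := hφ0 y
    exact ⟨μ P, hφ P⟩
  · obtain ⟨P, rfl⟩ := hμ w
    rw [hφ, hφ0', Ideal.mem_span_pair]
    constructor
    · rintro ⟨u, v, rfl⟩; exact ⟨μ u, μ v, by simp⟩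
    · rintro ⟨u, v, huv⟩
      obtain ⟨u, rfl⟩ := hμ u
      obtain ⟨v, rfl⟩ := hμ v
      obtain ⟨U, hU⟩ := (hμ0 (P - (u * F + v * (p * (g + F))))).1 (by
        rw [map_sub, ← huv]; simp)
      exact ⟨u + X * U, v, by linear_combination -hU⟩

end Pool.Agent.H68.SM
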